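import Pool.Agent.H934R2.Ch.Conv
import Pool.Agent.N905.EX.Three

/-!
Chamberland's real extension `f` of the Collatz map: the critical points of `f` just above the odd
integers. For all but `O(X / y ^ 0.06)` of the `n ≤ X` (an explicit exponent beyond the entropy exponent
`1 - H(log_3 2) = 0.05004...`) the interval `J n = [n, n + 5/(6(2n+1))]`, which for odd `n`
contains the critical point of `f` in `(n, n + 1/2)`, is carried by an iterate of `f` into some `J m`,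
`m ≤ y`.
-/

set_option autoImplicit false

namespace Pool.Agent.Results.MP_a247fa_nt.CriticalOrbitsExplicit

open Filter Topology Pool.Agent.H934R2.Ch

theorem T_Td (n : ℕ) : Pool.Agent.H499R2.ND.Td 1 (n : ℤ) = ((T n : ℕ) : ℤ) := by
  unfold Pool.Agent.H499R2.ND.Td T
  rcases Nat.mod_two_eq_zero_or_one n with h | h
  · rw [if_pos (by omega), if_pos h]; omega
  · rw [if_neg (by omega), if_neg (by omega)]; omega

theorem iter_Td (n k : ℕ) : (Pool.Agent.H499R2.ND.Td 1)^[k] (n : ℤ) = ((T^[k] n : ℕ) : ℤ) := by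
  induction k with
  | zero => rfl
  | succ k ih =>
    rw [Function.iterate_succ_apply', Function.iterate_succ_apply', ih, T_Td]

/-- The interval `J n = [n, n + 5/(6(2n+1))]`. -/
def J (n : ℕ) : Set ℝ := Set.Icc (n : ℝ) (n + 5 / (6 * (2 * (n : ℝ) + 1)))

theorem carry {n : ℕ} (hn : 1 ≤ n) (k : ℕ) : ∀ x ∈ J n, f^[k] x ∈ J (T^[k] n) :=
  fun _ hx => shadow hn hx k

/-- the main reduction -/
theorem small_of {n : ℕ} (hn : 1 ≤ n) {y : ℝ} {k : ℕ} (h : ((T^[k] n : ℕ) : ℝ) ≤ y) :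
    ∃ m i : ℕ, 1 ≤ m ∧ (m : ℝ) ≤ y ∧ ∀ x ∈ J n, f^[i] x ∈ J m :=
  ⟨T^[k] n, k, T_iter_pos hn k, h, carry hn k⟩

theorem J_le {m : ℕ} (hm : 1 ≤ m) {x : ℝ} (hx : x ∈ J m) : x ≤ m + 5 / 18 := by
  have h1 := b_le hm
  have h2 : x ≤ m + b m := hx.2
  linarith

theorem attracts_iter {z x : ℝ} (hz : 0 < Function.minimalPeriod f z) (h : Attracts z x) (i : ℕ) :
    Attracts z (f^[i] x) := by
  obtain ⟨j, hj⟩ := h
  obtain ⟨q, hq⟩ : ∃ q, Function.minimalPeriod f z = q + 1 :=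
    ⟨_, (Nat.succ_pred_eq_of_pos hz).symm⟩
  refine ⟨j + i * q, ?_⟩
  have h2 : (fun k : ℕ => f^[k * Function.minimalPeriod f z + (j + i * q)] (f^[i] x))
      = fun k : ℕ => (fun k : ℕ => f^[k * Function.minimalPeriod f z + j] x) (k + i) := by
    funext k
    rw [← Function.iterate_add_apply]
    show f^[k * Function.minimalPeriod f z + (j + i * q) + i] x
      = f^[(k + i) * Function.minimalPeriod f z + j] x
    have h3 : k * Function.minimalPeriod f z + (j + i * q) + i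
        = (k + i) * Function.minimalPeriod f z + j := by
      rw [hq]; ring
    rw [h3]
  rw [h2]
  exact (tendsto_add_atTop_iff_nat
    (f := fun k : ℕ => f^[k * Function.minimalPeriod f z + j] x) i).2 hj

/-- uniform power saving for `T` beyond the entropy exponent -/
theorem power : ∃ C : ℝ, 0 < C ∧
    ∀ X y : ℝ, 1 ≤ X → 1 ≤ y →
    ({n : ℕ | 1 ≤ n ∧ (n : ℝ) ≤ X ∧ ∀ k : ℕ, y < ((T^[k] n : ℕ) : ℝ)}.ncard : ℝ)
      ≤ C * X / y ^ (6 / 100 : ℝ) := by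
  obtain ⟨C, hC, h⟩ := Pool.Agent.N905.EX.three_ex (k := 1) odd_one
  refine ⟨C, hC, fun X y hX hy => le_trans ?_ (h X y hX hy)⟩
  have hfin : {x : ℤ | |(x : ℝ)| ≤ X ∧
      ∀ k : ℕ, y < |(((Pool.Agent.H499R2.ND.Td 1)^[k] x : ℤ) : ℝ)|}.Finite := by
    apply (Set.finite_Icc (-⌈X⌉) ⌈X⌉).subset
    rintro x ⟨hx, -⟩
    have h1 := abs_le.1 hx
    have h2 := Int.le_ceil X
    rw [Set.mem_Icc]
    constructor
    · have : (-(⌈X⌉ : ℤ) : ℝ) ≤ x := by linarith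
      exact_mod_cast this
    · have : (x : ℝ) ≤ (⌈X⌉ : ℤ) := by linarith
      exact_mod_cast this
  have hsub : ((fun n : ℕ => (n : ℤ)) '' {n : ℕ | 1 ≤ n ∧ (n : ℝ) ≤ X ∧
      ∀ k : ℕ, y < ((T^[k] n : ℕ) : ℝ)}) ⊆
      {x : ℤ | |(x : ℝ)| ≤ X ∧ ∀ k : ℕ, y < |(((Pool.Agent.H499R2.ND.Td 1)^[k] x : ℤ) : ℝ)|} := by
    rintro _ ⟨n, ⟨hn1, hnX, hn⟩, rfl⟩
    refine ⟨?_, fun k => ?_⟩
    · simpa using hnX
    · simp only
      rw [iter_Td]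
      rw [Int.cast_natCast, abs_of_nonneg (Nat.cast_nonneg _)]
      exact hn k
  have h2 := Set.ncard_le_ncard hsub hfin
  rw [Set.ncard_image_of_injective _ Nat.cast_injective] at h2
  exact_mod_cast h2

/-- **Main theorem.** -/
theorem result :
    ∃ a : ℝ, a ∈ Set.Icc (1.19 : ℝ) 1.196 ∧ f (f a) = a ∧
      (∀ a' ∈ Set.Icc (1.19 : ℝ) 1.2, f (f a') = a' → a' = a) ∧
      -- for odd `n` the unique critical point of `f` in `(n, n + 1/2)` lies in `J n`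
      (∀ n : ℕ, n % 2 = 1 → ∃! x : ℝ, (n : ℝ) < x ∧ x < n + 1 / 2 ∧ deriv f x = 0) ∧
      (∀ n : ℕ, n % 2 = 1 → ∀ x : ℝ, (n : ℝ) < x → x < n + 1 / 2 → deriv f x = 0 → x ∈ J n) ∧
      -- quantitative bounds beyond the entropy exponent
      ∃ C : ℝ, 0 < C ∧ ∀ X y : ℝ, 1 ≤ X → 1 ≤ y →
        ({n : ℕ | 1 ≤ n ∧ (n : ℝ) ≤ X ∧
            ¬ ∃ m k : ℕ, 1 ≤ m ∧ (m : ℝ) ≤ y ∧ ∀ x ∈ J n, f^[k] x ∈ J m}.ncard : ℝ)
          ≤ C * X / y ^ (6 / 100 : ℝ) ∧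
        ({n : ℕ | n % 2 = 1 ∧ (n : ℝ) ≤ X ∧
            ∃ x : ℝ, (n : ℝ) < x ∧ x < n + 1 / 2 ∧ deriv f x = 0 ∧
              ∀ k : ℕ, y + 5 / 18 < f^[k] x}.ncard : ℝ)
          ≤ C * X / y ^ (6 / 100 : ℝ) ∧
        ({n : ℕ | n % 2 = 1 ∧ (n : ℝ) ≤ X ∧
            ∃ x : ℝ, (n : ℝ) < x ∧ x < n + 1 / 2 ∧ deriv f x = 0 ∧
              ∃ z : ℝ, AttrPt z ∧ Attracts z x ∧
                ∀ m : ℕ, 1 ≤ m → (m : ℝ) ≤ y → ∀ w ∈ J m, ¬ Attracts z w}.ncard : ℝ)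
          ≤ C * X / y ^ (6 / 100 : ℝ) ∧
        ((∀ m : ℕ, 1 ≤ m → (m : ℝ) ≤ y → ∃ k : ℕ, T^[k] m = 1) →
          ({n : ℕ | n % 2 = 1 ∧ (n : ℝ) ≤ X ∧
              ∃ x : ℝ, (n : ℝ) < x ∧ x < n + 1 / 2 ∧ deriv f x = 0 ∧
                ¬ (Attracts 1 x ∨ Attracts a x ∨
                  ∃ K : ℕ, f^[K] x ∈ Set.Icc (1.02 : ℝ) 1.05 ∧ f^[K + 2] x = f^[K] x)}.ncard : ℝ)
            ≤ C * X / y ^ (6 / 100 : ℝ)) := by
  obtain ⟨a, ha, hga⟩ := exists_a2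
  obtain ⟨C, hC, hb⟩ := power
  refine ⟨a, ha, hga, fun a' ha' h => a2_unique ha hga ha' h,
    fun n hn => exists_unique_odd n hn, fun n hn x h1 h2 h3 => crit_in_trap hn h1 h2 h3,
    C, hC, fun X y hX hy => ?_⟩
  have hfin : {n : ℕ | 1 ≤ n ∧ (n : ℝ) ≤ X ∧ ∀ k : ℕ, y < ((T^[k] n : ℕ) : ℝ)}.Finite := by
    refine (Set.finite_Icc 1 ⌊X⌋₊).subset fun n hn => ⟨hn.1, ?_⟩
    exact Nat.le_floor hn.2.1
  refine ⟨?_, ?_, ?_, fun hver => ?_⟩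
  · refine le_trans ?_ (hb X y hX hy)
    have h : {n : ℕ | 1 ≤ n ∧ (n : ℝ) ≤ X ∧
        ¬ ∃ m k : ℕ, 1 ≤ m ∧ (m : ℝ) ≤ y ∧ ∀ x ∈ J n, f^[k] x ∈ J m} ⊆
        {n : ℕ | 1 ≤ n ∧ (n : ℝ) ≤ X ∧ ∀ k : ℕ, y < ((T^[k] n : ℕ) : ℝ)} := by
      rintro n ⟨h1, h2, h3⟩
      refine ⟨h1, h2, fun k => ?_⟩
      by_contra hk
      exact h3 (small_of h1 (not_lt.1 hk))
    exact_mod_cast Set.ncard_le_ncard h hfin
  · refine le_trans ?_ (hb X y hX hy)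
    have h : {n : ℕ | n % 2 = 1 ∧ (n : ℝ) ≤ X ∧
        ∃ x : ℝ, (n : ℝ) < x ∧ x < n + 1 / 2 ∧ deriv f x = 0 ∧
          ∀ k : ℕ, y + 5 / 18 < f^[k] x} ⊆
        {n : ℕ | 1 ≤ n ∧ (n : ℝ) ≤ X ∧ ∀ k : ℕ, y < ((T^[k] n : ℕ) : ℝ)} := by
      rintro n ⟨h1, h2, x, hx1, hx2, hx3, hx4⟩
      refine ⟨by omega, h2, fun k => ?_⟩
      by_contra hk
      obtain ⟨m, i, hm, hmy, hcar⟩ := small_of (by omega : 1 ≤ n) (not_lt.1 hk)
      have hx : x ∈ J n := crit_in_trap h1 hx1 hx2 hx3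
      have h5 := J_le hm (hcar x hx)
      have h6 := hx4 i
      linarith
    exact_mod_cast Set.ncard_le_ncard h hfin
  · refine le_trans ?_ (hb X y hX hy)
    have h : {n : ℕ | n % 2 = 1 ∧ (n : ℝ) ≤ X ∧
        ∃ x : ℝ, (n : ℝ) < x ∧ x < n + 1 / 2 ∧ deriv f x = 0 ∧
          ∃ z : ℝ, AttrPt z ∧ Attracts z x ∧
            ∀ m : ℕ, 1 ≤ m → (m : ℝ) ≤ y → ∀ w ∈ J m, ¬ Attracts z w} ⊆
        {n : ℕ | 1 ≤ n ∧ (n : ℝ) ≤ X ∧ ∀ k : ℕ, y < ((T^[k] n : ℕ) : ℝ)} := by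
      rintro n ⟨h1, h2, x, hx1, hx2, hx3, z, hz, hzx, hz4⟩
      refine ⟨by omega, h2, fun k => ?_⟩
      by_contra hk
      obtain ⟨m, i, hm, hmy, hcar⟩ := small_of (by omega : 1 ≤ n) (not_lt.1 hk)
      have hx : x ∈ J n := crit_in_trap h1 hx1 hx2 hx3
      exact hz4 m hm hmy _ (hcar x hx) (attracts_iter hz.2.1 hzx i)
    exact_mod_cast Set.ncard_le_ncard h hfin
  · refine le_trans ?_ (hb X y hX hy)
    have h : {n : ℕ | n % 2 = 1 ∧ (n : ℝ) ≤ X ∧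
        ∃ x : ℝ, (n : ℝ) < x ∧ x < n + 1 / 2 ∧ deriv f x = 0 ∧
          ¬ (Attracts 1 x ∨ Attracts a x ∨
            ∃ K : ℕ, f^[K] x ∈ Set.Icc (1.02 : ℝ) 1.05 ∧ f^[K + 2] x = f^[K] x)} ⊆
        {n : ℕ | 1 ≤ n ∧ (n : ℝ) ≤ X ∧ ∀ k : ℕ, y < ((T^[k] n : ℕ) : ℝ)} := by
      rintro n ⟨h1, h2, x, hx1, hx2, hx3, hx4⟩
      refine ⟨by omega, h2, fun k => ?_⟩
      by_contra hk
      have hn1 : 1 ≤ n := by omega
      obtain ⟨i, hi⟩ := hver _ (T_iter_pos hn1 k) (not_lt.1 hk)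
      rw [← Function.iterate_add_apply] at hi
      exact hx4 (conv_reach ha hga hn1 hi (crit_in_trap h1 hx1 hx2 hx3))
    exact_mod_cast Set.ncard_le_ncard h hfin

end Pool.Agent.Results.MP_a247fa_nt.CriticalOrbitsExplicit
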