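import Pool.Agent.N733.TG.K
import Pool.Agent.N255.TGX.Dyadic
import Pool.Agent.H934R2.Ch.Conv
import Pool.Agent.N905.EX.Three

/-!
# The critical points of Chamberland's map near functions of the values of multiplicative functions

`f` is Chamberland's real extension of the Collatz map and `J n = [n, n + 5/(6(2n+1))]`, which for odd `n`
contains the critical point of `f` in `(n, n + 1/2)`. Let `g` be a positive multiplicative function of at
most polynomial growth such that `g p ≤ M p` for the large primes `p`, with different values at different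
large primes; for example Euler's function or the sum of the divisors. Let `0 < δ ≤ 1`, `α > 0` and
`κ < 0.06 δ`. For all `l ≤ N` but `N / (log N)^U`, for EVERY `n` with `|n - α g(l)| ≤ g(l)^κ` an iterate of
`f` maps `J n` into `J m` for some `m ≤ n^δ`. So all the critical points above the odd numbers `n` of this
window fall to size `n^δ`, and all attracting cycles of `f` which attract one of them attract a point of
`J m`, `m ≤ n^δ`. More generally `G (g l)` takes the place of `α g(l)`, where `G` is any function with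
steps bounded below by a positive constant and growth at most `v^d`, `d (1 - 0.06 δ) + κ < 1`. The values
of `g` are in general taken with very large multiplicities, and so this does not follow from the size of
the exceptional set.

Proof. All but `C X / y^0.06` of the `n ≤ X` have an iterate of the Collatz map which is at most `y`
(N905/EX, helper905), and `f` shadows the Collatz orbits on `J n` (starting library H934R2). By dyadic
summation the exceptional set has `O(X^(1 - 0.06 δ))` elements up to `X`. Then the tool `N733/TG` of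
helper733: multiplicative functions which are linear at the primes avoid such sets.
-/

set_option autoImplicit false

namespace Pool.Agent.Results.MP_a247fa_nt.MultiplicativeValues

open Pool.Agent.H934R2.Ch
open Pool.Agent.N733.TG (LM Expanding lm_totient lm_sigma keep_good_nat expanding_pow)

/-- The interval `J n = [n, n + 5/(6(2n+1))]`. -/
def J (n : ℕ) : Set ℝ := Set.Icc (n : ℝ) (n + 5 / (6 * (2 * (n : ℝ) + 1)))

/-- An iterate of `f` maps `J n` into some `J m`, `m ≤ n ^ δ`. -/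
def Low (δ : ℝ) (n : ℕ) : Prop :=
  ∃ m k : ℕ, 1 ≤ m ∧ (m : ℝ) ≤ (n : ℝ) ^ δ ∧ ∀ x ∈ J n, f^[k] x ∈ J m

theorem T_Td (n : ℕ) : Pool.Agent.H499R2.ND.Td 1 (n : ℤ) = ((T n : ℕ) : ℤ) := by
  unfold Pool.Agent.H499R2.ND.Td T
  rcases Nat.mod_two_eq_zero_or_one n with h | h
  · rw [if_pos (by omega), if_pos h]; omega
  · rw [if_neg (by omega), if_neg (by omega)]; omega

theorem iter_Td (n k : ℕ) : (Pool.Agent.H499R2.ND.Td 1)^[k] (n : ℤ) = ((T^[k] n : ℕ) : ℤ) := by
  induction k with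
  | zero => rfl
  | succ k ih =>
    rw [Function.iterate_succ_apply', Function.iterate_succ_apply', ih, T_Td]

theorem carry {n : ℕ} (hn : 1 ≤ n) (k : ℕ) : ∀ x ∈ J n, f^[k] x ∈ J (T^[k] n) :=
  fun _ hx => shadow hn hx k

theorem J_le {m : ℕ} (hm : 1 ≤ m) {x : ℝ} (hx : x ∈ J m) : x ≤ m + 5 / 18 := by
  have h1 := b_le hm
  have h2 : x ≤ m + b m := hx.2
  linarith

theorem attracts_iter {z x : ℝ} (hz : 0 < Function.minimalPeriod f z) (h : Attracts z x) (i : ℕ) :
    Attracts z (f^[i] x) := by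
  obtain ⟨j, hj⟩ := h
  obtain ⟨q, hq⟩ : ∃ q, Function.minimalPeriod f z = q + 1 :=
    ⟨_, (Nat.succ_pred_eq_of_pos hz).symm⟩
  refine ⟨j + i * q, ?_⟩
  have h2 : (fun k : ℕ => f^[k * Function.minimalPeriod f z + (j + i * q)] (f^[i] x))
      = fun k : ℕ => (fun k : ℕ => f^[k * Function.minimalPeriod f z + j] x) (k + i) := by
    funext k
    rw [← Function.iterate_add_apply]
    show f^[k * Function.minimalPeriod f z + (j + i * q) + i] x
      = f^[(k + i) * Function.minimalPeriod f z + j] x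
    have h3 : k * Function.minimalPeriod f z + (j + i * q) + i
        = (k + i) * Function.minimalPeriod f z + j := by
      rw [hq]; ring
    rw [h3]
  rw [h2]
  exact (Filter.tendsto_add_atTop_iff_nat
    (f := fun k : ℕ => f^[k * Function.minimalPeriod f z + j] x) i).2 hj

/-- The starting values below `X` all of whose Collatz iterates exceed `y`. -/
theorem power : ∃ C : ℝ, 0 < C ∧
    ∀ X y : ℝ, 1 ≤ X → 1 ≤ y →
    ({n : ℕ | 1 ≤ n ∧ (n : ℝ) ≤ X ∧ ∀ k : ℕ, y < ((T^[k] n : ℕ) : ℝ)}.ncard : ℝ)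
      ≤ C * X / y ^ (6 / 100 : ℝ) := by
  obtain ⟨C, hC, h⟩ := Pool.Agent.N905.EX.three_ex (k := 1) odd_one
  refine ⟨C, hC, fun X y hX hy => le_trans ?_ (h X y hX hy)⟩
  have hfin : {x : ℤ | |(x : ℝ)| ≤ X ∧
      ∀ k : ℕ, y < |(((Pool.Agent.H499R2.ND.Td 1)^[k] x : ℤ) : ℝ)|}.Finite := by
    apply (Set.finite_Icc (-⌈X⌉) ⌈X⌉).subset
    rintro x ⟨hx, -⟩
    have h1 := abs_le.1 hx
    have h2 := Int.le_ceil X
    rw [Set.mem_Icc]
    constructor
    · have : (-(⌈X⌉ : ℤ) : ℝ) ≤ x := by linarith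
      exact_mod_cast this
    · have : (x : ℝ) ≤ (⌈X⌉ : ℤ) := by linarith
      exact_mod_cast this
  have hsub : ((fun n : ℕ => (n : ℤ)) '' {n : ℕ | 1 ≤ n ∧ (n : ℝ) ≤ X ∧
      ∀ k : ℕ, y < ((T^[k] n : ℕ) : ℝ)}) ⊆
      {x : ℤ | |(x : ℝ)| ≤ X ∧ ∀ k : ℕ, y < |(((Pool.Agent.H499R2.ND.Td 1)^[k] x : ℤ) : ℝ)|} := by
    rintro _ ⟨n, ⟨hn1, hnX, hn⟩, rfl⟩
    refine ⟨?_, fun k => ?_⟩
    · simpa using hnX
    · simp only
      rw [iter_Td]
      rw [Int.cast_natCast, abs_of_nonneg (Nat.cast_nonneg _)]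
      exact hn k
  have h2 := Set.ncard_le_ncard hsub hfin
  rw [Set.ncard_image_of_injective _ Nat.cast_injective] at h2
  exact_mod_cast h2

/-- The exceptional starting values. -/
def Bad (δ X : ℝ) : Set ℕ :=
  {n : ℕ | 1 ≤ n ∧ (n : ℝ) ≤ X ∧ ∀ k : ℕ, (n : ℝ) ^ δ < ((T^[k] n : ℕ) : ℝ)}

lemma bad_fin (δ X : ℝ) : (Bad δ X).Finite :=
  (Set.finite_Icc 1 ⌊X⌋₊).subset fun _ hn => ⟨hn.1, Nat.le_floor hn.2.1⟩

lemma count {δ : ℝ} (hδ : 0 < δ) (hδ1 : δ ≤ 1) : ∃ K : ℝ, ∀ X : ℝ, 1 ≤ X →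
    ((Bad δ X).ncard : ℝ) ≤ K * X ^ (1 - 6 / 100 * δ) := by
  obtain ⟨C, hC, hP⟩ := power
  refine Pool.Agent.N255.TGX.dyadic (N := fun X => ((Bad δ X).ncard : ℝ))
    (s := 1 - 6 / 100 * δ) (C := C * 2) (B := 1) (X₀ := 2) (by linarith) (by positivity)
    (by norm_num) le_rfl ?_ ?_
  · intro X hX hX2
    have hsub : Bad δ X ⊆ ((({1} : Finset ℕ)) : Set ℕ) := by
      intro n hn
      have h1 : (n : ℝ) < 2 := hn.2.1.trans_lt hX2
      have h2 : n < 2 := by exact_mod_cast h1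
      have h3 := hn.1
      simp
      omega
    have h2 := Set.ncard_le_ncard hsub (Finset.finite_toSet _)
    rw [Set.ncard_coe_finset, Finset.card_singleton] at h2
    exact_mod_cast h2
  · intro X hX
    obtain ⟨S, hS⟩ : ∃ S : Set ℕ, S = {n : ℕ | 1 ≤ n ∧ (n : ℝ) ≤ X ∧
      ∀ k : ℕ, (X / 2) ^ δ < ((T^[k] n : ℕ) : ℝ)} := ⟨_, rfl⟩
    have hy : 1 ≤ (X / 2) ^ δ := Real.one_le_rpow (by linarith) hδ.le
    have hSc : (S.ncard : ℝ) ≤ C * X / ((X / 2) ^ δ) ^ (6 / 100 : ℝ) := by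
      rw [hS]
      exact hP X _ (by linarith) hy
    have hSf : S.Finite := by
      apply (Set.finite_Icc 1 ⌊X⌋₊).subset
      intro n hn
      rw [hS] at hn
      exact ⟨hn.1, Nat.le_floor hn.2.1⟩
    have hsub : Bad δ X ⊆ Bad δ (X / 2) ∪ S := by
      intro n hn
      by_cases hn2 : (n : ℝ) ≤ X / 2
      · exact Or.inl ⟨hn.1, hn2, hn.2.2⟩
      · right
        rw [hS]
        rw [not_le] at hn2
        refine ⟨hn.1, hn.2.1, fun k => lt_of_le_of_lt ?_ (hn.2.2 k)⟩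
        exact Real.rpow_le_rpow (by linarith) hn2.le hδ.le
    have hX0 : 0 < X := by linarith
    have hle : C * X / ((X / 2) ^ δ) ^ (6 / 100 : ℝ) ≤ C * 2 * X ^ (1 - 6 / 100 * δ) := by
      rw [← Real.rpow_mul (by linarith), div_le_iff₀ (by positivity)]
      have e1 : X ^ (1 - 6 / 100 * δ) * (X / 2) ^ (δ * (6 / 100)) = X / 2 ^ (δ * (6 / 100)) := by
        rw [Real.div_rpow hX0.le (by norm_num), ← mul_div_assoc, ← Real.rpow_add hX0]
        congr 1
        rw [show 1 - 6 / 100 * δ + δ * (6 / 100) = 1 by ring, Real.rpow_one]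
      have e2 : (2 : ℝ) ^ (δ * (6 / 100)) ≤ 2 := by
        calc (2 : ℝ) ^ (δ * (6 / 100)) ≤ 2 ^ (1 : ℝ) :=
              Real.rpow_le_rpow_of_exponent_le (by norm_num) (by linarith)
          _ = 2 := Real.rpow_one 2
      have e3 : X / 2 ≤ X / 2 ^ (δ * (6 / 100)) := by
        gcongr
      calc C * X = C * 2 * (X / 2) := by ring
        _ ≤ C * 2 * (X / 2 ^ (δ * (6 / 100))) := by gcongr
        _ = C * 2 * X ^ (1 - 6 / 100 * δ) * (X / 2) ^ (δ * (6 / 100)) := by
            rw [mul_assoc (C * 2), e1]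
    have h6 : ((Bad δ X).ncard : ℝ) ≤ (Bad δ (X / 2)).ncard + S.ncard := by
      have := (Set.ncard_le_ncard hsub ((bad_fin δ (X / 2)).union hSf)).trans
        (Set.ncard_union_le _ _)
      exact_mod_cast this
    show ((Bad δ X).ncard : ℝ) ≤ ((Bad δ (X / 2)).ncard : ℝ) + C * 2 * X ^ (1 - 6 / 100 * δ)
    linarith

/-- (1) Let `g` be multiplicative and positive, of at most polynomial growth, with `g p ≤ M p` at the
large primes, and injective there. Let `G` have steps `≥ a > 0` and growth at most `v^d`. Let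
`0 < δ ≤ 1`, `κ ≥ 0` and `d (1 - 0.06 δ) + κ < 1`. For every `U` and all large `N`, for all `l ≤ N` but
`N / (log N)^U`, for EVERY `n ≥ 1` with `|n - G (g l)| ≤ g(l)^κ` an iterate of Chamberland's map `f` maps
`J n` into `J m` for some `m ≤ n^δ`. (2) If this holds for the odd number `n`, then the unique critical
point `x` of `f` in `(n, n + 1/2)` has an iterate which is at most `n^δ + 5/18`, and every attracting
periodic point which attracts `x` attracts a point of `J m` for some `m ≤ n^δ`. (3) Euler's function and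
the sum of the divisors are examples of such functions `g`, and `α v^d` with `α > 0`, `d ≥ 1` is an
example of `G`. -/
theorem result :
    (∀ g : ℕ → ℕ, LM g → ∀ (G : ℕ → ℝ) (d : ℝ), Expanding G d → ∀ δ κ : ℝ, 0 < δ → δ ≤ 1 →
      0 ≤ κ → d * (1 - 6 / 100 * δ) + κ < 1 → ∀ U : ℕ, ∃ N₀ : ℕ, ∀ N : ℕ, N₀ ≤ N →
      ({l : ℕ | 1 ≤ l ∧ l ≤ N ∧ ¬ ∀ n : ℕ, 1 ≤ n → |(n : ℝ) - G (g l)| ≤ (g l : ℝ) ^ κ →
        Low δ n}.ncard : ℝ) ≤ N / Real.log N ^ U) ∧
    (∀ (δ : ℝ) (n : ℕ), n % 2 = 1 → Low δ n →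
      (∃! x : ℝ, (n : ℝ) < x ∧ x < n + 1 / 2 ∧ deriv f x = 0) ∧
      ∀ x : ℝ, (n : ℝ) < x → x < n + 1 / 2 → deriv f x = 0 →
        (∃ k : ℕ, f^[k] x ≤ (n : ℝ) ^ δ + 5 / 18) ∧
        ∀ z : ℝ, AttrPt z → Attracts z x →
          ∃ m : ℕ, 1 ≤ m ∧ (m : ℝ) ≤ (n : ℝ) ^ δ ∧ ∃ w ∈ J m, Attracts z w) ∧
    (LM Nat.totient ∧ LM (fun m => ∑ d ∈ m.divisors, d)) ∧
    ∀ α d : ℝ, 0 < α → 1 ≤ d → Expanding (fun v => α * (v : ℝ) ^ d) d := by
  refine ⟨fun g hg G d hG δ κ hδ hδ1 hκ h1 U => ?_, fun δ n hn hlow => ?_, ⟨lm_totient, lm_sigma⟩,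
    fun α d hα hd => expanding_pow hα hd⟩
  · obtain ⟨K, hK⟩ := count hδ hδ1
    obtain ⟨N₀, hN₀⟩ := keep_good_nat (fun _ => True) (Low δ) hg hG (s := 1 - 6 / 100 * δ) (κ := κ)
      (by linarith) hκ h1 (fun ε hε => by
        refine ⟨|K|, fun X hX => ?_⟩
        have hX1 : (1 : ℝ) ≤ X := by exact_mod_cast hX
        have hsub : {t : ℕ | 1 ≤ t ∧ t ≤ X ∧ True ∧ ¬ Low δ t} ⊆ Bad δ X := by
          rintro t ⟨h2, h3, -, h4⟩
          refine ⟨h2, by exact_mod_cast h3, fun k => ?_⟩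
          by_contra hk
          exact h4 ⟨T^[k] t, k, T_iter_pos h2 k, not_lt.1 hk, carry h2 k⟩
        have h5 : (({t : ℕ | 1 ≤ t ∧ t ≤ X ∧ True ∧ ¬ Low δ t}.ncard : ℕ) : ℝ)
            ≤ ((Bad δ X).ncard : ℝ) := by
          exact_mod_cast Set.ncard_le_ncard hsub (bad_fin δ X)
        refine h5.trans ((hK X hX1).trans ?_)
        have h2 : (X : ℝ) ^ (1 - 6 / 100 * δ) ≤ (X : ℝ) ^ (1 - 6 / 100 * δ + ε) :=
          Real.rpow_le_rpow_of_exponent_le hX1 (by linarith)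
        have h3 : 0 ≤ (X : ℝ) ^ (1 - 6 / 100 * δ) := Real.rpow_nonneg (by linarith) _
        calc K * (X : ℝ) ^ (1 - 6 / 100 * δ) ≤ |K| * (X : ℝ) ^ (1 - 6 / 100 * δ) :=
              mul_le_mul_of_nonneg_right (le_abs_self K) h3
          _ ≤ |K| * (X : ℝ) ^ (1 - 6 / 100 * δ + ε) :=
              mul_le_mul_of_nonneg_left h2 (abs_nonneg K)) U
    refine ⟨N₀, fun N hN => le_trans (le_of_eq ?_) (hN₀ N hN)⟩
    congr 2
    ext l
    simp only [Set.mem_ofPred_eq, true_implies]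
  · obtain ⟨m, k, hm, hmn, hJ⟩ := hlow
    refine ⟨exists_unique_odd n hn, fun x hx1 hx2 hx3 => ?_⟩
    have hx : x ∈ J n := crit_in_trap hn hx1 hx2 hx3
    refine ⟨⟨k, ?_⟩, fun z hz hzx => ?_⟩
    · have := J_le hm (hJ x hx)
      linarith
    · exact ⟨m, hm, hmn, f^[k] x, hJ x hx, attracts_iter hz.2.1 hzx k⟩

end Pool.Agent.Results.MP_a247fa_nt.MultiplicativeValues
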